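import Mathlib

/-!
Polynomial maps from a group to itself, in the sense of Leibman, with respect to a filtration.
-/

namespace Pool.Agent.Helper87_Cover

open Subgroup
open scoped commutatorElement

/-- Three subgroups lemma modulo a normal subgroup. -/
theorem three_subgroups_le {G : Type*} [Group G] {A B C N : Subgroup G} [N.Normal]
    (h1 : ⁅⁅B, C⁆, A⁆ ≤ N) (h2 : ⁅⁅C, A⁆, B⁆ ≤ N) : ⁅⁅A, B⁆, C⁆ ≤ N := by
  have key : ∀ X : Subgroup G, X ≤ N ↔ X.map (QuotientGroup.mk' N) = ⊥ := by
    intro X
    rw [Subgroup.map_eq_bot_iff, QuotientGroup.ker_mk']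
  rw [key] at h1 h2 ⊢
  rw [Subgroup.map_commutator, Subgroup.map_commutator] at h1 h2 ⊢
  exact Subgroup.commutator_commutator_eq_bot_of_rotate h1 h2

theorem lcs_comm {G : Type*} [Group G] (i j : ℕ) :
    ⁅(⊤ : Subgroup G).lowerCentralSeries i, (⊤ : Subgroup G).lowerCentralSeries j⁆ ≤
      (⊤ : Subgroup G).lowerCentralSeries (i + j + 1) := by
  induction j generalizing i with
  | zero => exact le_of_eq rfl
  | succ j ih =>
    rw [Subgroup.lowerCentralSeries_succ (n := j), Subgroup.commutator_comm]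
    apply three_subgroups_le
    · -- ⁅⁅⊤, lcs i⁆, lcs j⁆
      rw [Subgroup.commutator_comm ⊤]
      have := ih (i + 1)
      rw [Subgroup.lowerCentralSeries_succ] at this
      refine this.trans (le_of_eq ?_)
      congr 1
      ring
    · have := ih i
      refine (Subgroup.commutator_mono this le_rfl).trans (le_of_eq ?_)
      rw [← Subgroup.lowerCentralSeries_succ]
      rfl

/-- A filtration of a group: subgroups `S j` decreasing in `j` with `⁅S i, S j⁆ ≤ S (i + j)`. -/
structure Fil (M : Type*) [Group M] where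
  S : ℕ → Subgroup M
  comm : ∀ i j, ⁅S i, S j⁆ ≤ S (i + j)
  anti : ∀ j, S (j + 1) ≤ S j

namespace Fil

variable {M : Type*} [Group M] (L : Fil M)

theorem le_zero (j : ℕ) : L.S j ≤ L.S 0 := by
  induction j with
  | zero => exact le_rfl
  | succ j ih => exact (L.anti j).trans ih

theorem comm_mem {i j : ℕ} {a b : M} (ha : a ∈ L.S i) (hb : b ∈ L.S j) : ⁅a, b⁆ ∈ L.S (i + j) :=
  L.comm i j (Subgroup.commutator_mem_commutator ha hb)

theorem conj_mem {j : ℕ} {a c : M} (ha : a ∈ L.S j) (hc : c ∈ L.S 0) : c * a * c⁻¹ ∈ L.S j := by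
  have h := L.comm_mem hc ha
  rw [zero_add] at h
  have : c * a * c⁻¹ = ⁅c, a⁆ * a := by simp [commutatorElement_def]
  rw [this]
  exact mul_mem h ha

theorem conj_mem' {j : ℕ} {a c : M} (ha : a ∈ L.S j) (hc : c ∈ L.S 0) : c⁻¹ * a * c ∈ L.S j := by
  have := L.conj_mem ha (inv_mem hc)
  simpa using this

/-- The commutator estimate behind the step in Leibman's theorem. -/
theorem step {i j : ℕ} {a u b v : M} (ha : a ∈ L.S i) (hu : u ∈ L.S (i + 1))
    (hb : b ∈ L.S j) (hv : v ∈ L.S (j + 1)) :
    ⁅a, b⁆⁻¹ * ⁅a * u, b * v⁆ ∈ L.S (i + j + 1) := by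
  have ha0 := L.le_zero _ ha
  have hb0 := L.le_zero _ hb
  have h1 : ⁅u, b * v⁆ ∈ L.S (i + j + 1) := by
    rw [commutatorElement_mul_right_eq_mul_conj]
    have e1 : ⁅u, b⁆ ∈ L.S (i + j + 1) := by
      have := L.comm_mem hu hb
      rwa [show i + 1 + j = i + j + 1 by ring] at this
    have e2 : ⁅u, v⁆ ∈ L.S (i + j + 1) := by
      have := L.comm_mem hu hv
      rw [show i + 1 + (j + 1) = i + j + 1 + 1 by ring] at this
      exact L.anti _ this
    have e3 := L.conj_mem e2 hb0
    have := mul_mem e1 e3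
    simpa [mul_assoc] using this
  have h2 : ⁅a, v⁆ ∈ L.S (i + j + 1) := by
    have := L.comm_mem ha hv
    rwa [show i + (j + 1) = i + j + 1 by ring] at this
  have h3 := L.conj_mem h1 ha0
  have h4 := L.conj_mem h2 hb0
  have h0 : ⁅a, b⁆ ∈ L.S 0 := L.le_zero _ (L.comm_mem ha hb)
  have h5 := L.conj_mem' h3 h0
  have := mul_mem h5 h4
  have e : ⁅a, b⁆⁻¹ * ⁅a * u, b * v⁆ =
      ⁅a, b⁆⁻¹ * (a * ⁅u, b * v⁆ * a⁻¹) * ⁅a, b⁆ * (b * ⁅a, v⁆ * b⁻¹) := by
    rw [commutatorElement_mul_left_eq_conj_mul a u (b * v),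
      commutatorElement_mul_right_eq_mul_conj a b v]
    group
  rw [e]
  exact this

end Fil

variable {G : Type*} [Group G]

/-- The (right) derivative of a map `G → G` in direction `h`. -/
def D (h : G) (a : G → G) : G → G := fun x => (a x)⁻¹ * a (x * h)

/-- Right translation of the argument. -/
def R (h : G) (a : G → G) : G → G := fun x => a (x * h)

theorem R_eq (h : G) (a : G → G) : R h a = a * D h a := by
  ext x
  simp [R, D]

theorem D_mul (h : G) (a b : G → G) : D h (a * b) = b⁻¹ * D h a * b * D h b := by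
  ext x
  simp [D, mul_assoc]

theorem D_inv (h : G) (a : G → G) : D h a⁻¹ = a * (D h a)⁻¹ * a⁻¹ := by
  ext x
  simp [D, mul_assoc]

theorem D_one (h : G) : D h (1 : G → G) = 1 := by
  ext x
  simp [D]

theorem D_comm (h : G) (a b : G → G) : D h ⁅a, b⁆ = ⁅a, b⁆⁻¹ * ⁅a * D h a, b * D h b⁆ := by
  ext x
  simp [D, commutatorElement_def]

/-- One more derivative condition. -/
def next (L : Fil (G → G)) : Fil (G → G) where
  S j :=
    { carrier := {a | a ∈ L.S j ∧ ∀ h, D h a ∈ L.S (j + 1)}
      mul_mem' := by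
        rintro a b ⟨ha, ha'⟩ ⟨hb, hb'⟩
        refine ⟨mul_mem ha hb, fun h => ?_⟩
        rw [D_mul]
        exact mul_mem (L.conj_mem' (ha' h) (L.le_zero _ hb)) (hb' h)
      one_mem' := ⟨one_mem _, fun h => by rw [D_one]; exact one_mem _⟩
      inv_mem' := by
        rintro a ⟨ha, ha'⟩
        refine ⟨inv_mem ha, fun h => ?_⟩
        rw [D_inv]
        exact L.conj_mem (inv_mem (ha' h)) (L.le_zero _ ha) }
  comm i j := by
    rw [Subgroup.commutator_le]
    rintro a ⟨ha, ha'⟩ b ⟨hb, hb'⟩
    refine ⟨L.comm_mem ha hb, fun h => ?_⟩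
    rw [D_comm]
    exact L.step ha (ha' h) hb (hb' h)
  anti j := by
    rintro a ⟨ha, ha'⟩
    exact ⟨L.anti _ ha, fun h => L.anti _ (ha' h)⟩

theorem mem_next {L : Fil (G → G)} {j : ℕ} {a : G → G} :
    a ∈ (next L).S j ↔ a ∈ L.S j ∧ ∀ h, D h a ∈ L.S (j + 1) := Iff.rfl

/-- The filtration of `G` by the lower central series, indexed so that
`F 0 = F 1 = ⊤` and `F (i+1)` is the `i`-th term in the convention of Mathlib. -/
def lcsF (G : Type*) [Group G] : ℕ → Subgroup G
  | 0 => ⊤
  | (i + 1) => (⊤ : Subgroup G).lowerCentralSeries i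

instance lcsF_normal (G : Type*) [Group G] (j : ℕ) : (lcsF G j).Normal := by
  cases j with
  | zero => exact inferInstanceAs (⊤ : Subgroup G).Normal
  | succ j => exact inferInstanceAs ((⊤ : Subgroup G).lowerCentralSeries j).Normal

theorem lcsF_comm (G : Type*) [Group G] (i j : ℕ) : ⁅lcsF G i, lcsF G j⁆ ≤ lcsF G (i + j) := by
  cases i with
  | zero =>
    rw [zero_add]
    exact Subgroup.commutator_le_right _ _
  | succ i =>
    cases j with
    | zero => exact Subgroup.commutator_le_left _ _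
    | succ j =>
      have := lcs_comm (G := G) i j
      rw [show i + 1 + (j + 1) = (i + j + 1) + 1 by ring]
      exact this

theorem lcsF_anti (G : Type*) [Group G] (j : ℕ) : lcsF G (j + 1) ≤ lcsF G j := by
  cases j with
  | zero => exact le_top
  | succ j => exact Subgroup.lowerCentralSeries_antitone _ (Nat.le_succ j)

/-- The filtration of `G → G` by maps with values in the filtration of `G`. -/
def baseFil (G : Type*) [Group G] : Fil (G → G) where
  S j := Subgroup.pi Set.univ fun _ => lcsF G j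
  comm i j := by
    refine (Subgroup.commutator_pi_pi_le _ _).trans ?_
    intro a ha x hx
    exact lcsF_comm G i j (ha x hx)
  anti j := by
    intro a ha x hx
    exact lcsF_anti G j (ha x hx)

/-- Polynomial maps with `k` derivative conditions. -/
def iterFil (G : Type*) [Group G] : ℕ → Fil (G → G)
  | 0 => baseFil G
  | (k + 1) => next (iterFil G k)

theorem const_mem (k j : ℕ) {c : G} (hc : c ∈ lcsF G j) :
    (fun _ : G => c) ∈ (iterFil G k).S j := by
  induction k with
  | zero => exact fun _ _ => hc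
  | succ k ih =>
    refine mem_next.mpr ⟨ih, fun h => ?_⟩
    have : D h (fun _ : G => c) = 1 := by
      ext x
      simp [D]
    rw [this]
    exact one_mem _

theorem id_mem (k : ℕ) : (id : G → G) ∈ (iterFil G k).S 0 := by
  induction k with
  | zero => exact fun _ _ => Subgroup.mem_top _
  | succ k ih =>
    refine mem_next.mpr ⟨ih, fun h => ?_⟩
    have : D h (id : G → G) = fun _ => h := by
      ext x
      simp [D]
    rw [this]
    exact const_mem k _ (Subgroup.mem_top _)

theorem val_mem (k j : ℕ) {a : G → G} (ha : a ∈ (iterFil G k).S j) (x : G) : a x ∈ lcsF G j := by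
  induction k with
  | zero => exact ha x (Set.mem_univ _)
  | succ k ih => exact ih (mem_next.mp ha).1

theorem R_id_mem (k : ℕ) (g : G) : R g (id : G → G) ∈ (iterFil G k).S 0 := by
  have : R g (id : G → G) = id * fun _ => g := by
    ext x
    simp [R]
  rw [this]
  exact mul_mem (id_mem k) ((iterFil G k).anti 0 (const_mem k _ (Subgroup.mem_top _)))

end Pool.Agent.Helper87_Cover
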