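import Mathlib
import Pool.Agent.Helper87_Cover.Leibman

/-!
A group `H` with an endomorphism `s` such that `s y = y ^ 2` for `y` in a generating set.
Then `s` acts on the `i`-th factor of the lower central series as `w ↦ w ^ (2 ^ (i+1))`.
-/

namespace Pool.Agent.Helper87_Cover

open Subgroup
open scoped commutatorElement

/-- commutators of powers, when the commutator is central -/
theorem comm_pow {H : Type*} [Group H] {x y z : H} (hz : ⁅x, y⁆ = z) (hc : ∀ w, Commute z w)
    (a b : ℕ) : ⁅x ^ a, y ^ b⁆ = z ^ (a * b) := by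
  have h1 : ∀ a : ℕ, ⁅x ^ a, y⁆ = z ^ a := by
    intro a
    induction a with
    | zero => simp
    | succ a ih =>
      rw [pow_succ', commutatorElement_mul_left_eq_conj_mul, ih, hz]
      have e : x * z ^ a * x⁻¹ = z ^ a := by
        rw [← ((hc x).pow_left a).eq]
        group
      rw [e, pow_succ]
  induction b with
  | zero => simp
  | succ b ih =>
    rw [pow_succ, commutatorElement_mul_right_eq_mul_conj, ih, h1]
    have e : y ^ b * z ^ a * (y ^ b)⁻¹ = z ^ a := by
      rw [← ((hc (y ^ b)).pow_left a).eq]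
      group
    rw [mul_assoc (z ^ (a * b)), mul_assoc (z ^ (a * b)), e, ← pow_add]
    congr 1

variable {H : Type*} [Group H]

/-- `lcs i` of the whole group -/
abbrev lcs (H : Type*) [Group H] (i : ℕ) : Subgroup H := (⊤ : Subgroup H).lowerCentralSeries i

theorem lcs_central {i : ℕ} {w : H} (hw : w ∈ lcs H i) (v : H) :
    Commute (QuotientGroup.mk' (lcs H (i + 1)) w) (QuotientGroup.mk' (lcs H (i + 1)) v) := by
  rw [← commutatorElement_eq_one_iff_commute, ← map_commutatorElement]
  rw [← MonoidHom.mem_ker, QuotientGroup.ker_mk']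
  exact Subgroup.commutator_mem_commutator hw (Subgroup.mem_top v)

theorem lcs_central' {i : ℕ} {w : H} (hw : w ∈ lcs H i) (v : H ⧸ lcs H (i + 1)) :
    Commute (QuotientGroup.mk' (lcs H (i + 1)) w) v := by
  obtain ⟨v, rfl⟩ := QuotientGroup.mk'_surjective _ v
  exact lcs_central hw v

/-- The endomorphism `s` acts on the lower central factors by the expected powers. -/
theorem shift_lcs (s : H →* H) (Y : Set H) (hY : Subgroup.closure Y = ⊤)
    (hs : ∀ y ∈ Y, s y = y ^ 2) (i : ℕ) :
    ∀ w ∈ lcs H i, QuotientGroup.mk' (lcs H (i + 1)) (s w) =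
      QuotientGroup.mk' (lcs H (i + 1)) w ^ (2 ^ (i + 1)) := by
  induction i with
  | zero =>
    intro w _
    have hw : w ∈ Subgroup.closure Y := by rw [hY]; trivial
    induction hw using Subgroup.closure_induction with
    | mem y hy => rw [hs y hy, map_pow]; rfl
    | one => rw [map_one, map_one, one_pow]
    | mul x y hx hy ihx ihy =>
      rw [map_mul, map_mul, map_mul, ihx (Subgroup.mem_top _), ihy (Subgroup.mem_top _)]
      rw [(lcs_central (i := 0) (Subgroup.mem_top x) y).mul_pow]
    | inv x hx ihx =>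
      rw [map_inv, map_inv, map_inv, ihx (Subgroup.mem_top _), inv_pow]
  | succ i ih =>
    intro w hw
    have hw' : w ∈ Subgroup.closure {g | ∃ g₁ ∈ lcs H i, ∃ g₂ ∈ (⊤ : Subgroup H), ⁅g₁, g₂⁆ = g} :=
      hw
    clear hw
    suffices h : w ∈ lcs H (i + 1) ∧ QuotientGroup.mk' (lcs H (i + 1 + 1)) (s w) =
      QuotientGroup.mk' (lcs H (i + 1 + 1)) w ^ (2 ^ (i + 1 + 1)) from h.2
    induction hw' using Subgroup.closure_induction with
    | mem y hy =>
      obtain ⟨u, hu, v, -, rfl⟩ := hy
      refine ⟨Subgroup.commutator_mem_commutator hu (Subgroup.mem_top v), ?_⟩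
      -- write `s u = u ^ a * c`, `s v = v ^ 2 * d`
      have hu1 := ih u hu
      have hv1 : QuotientGroup.mk' (lcs H 1) (s v) = QuotientGroup.mk' (lcs H 1) v ^ 2 := by
        have hw : v ∈ Subgroup.closure Y := by rw [hY]; trivial
        induction hw using Subgroup.closure_induction with
        | mem y hy => rw [hs y hy, map_pow]
        | one => rw [map_one, map_one, one_pow]
        | mul x y hx hy ihx ihy =>
          rw [map_mul, map_mul, map_mul, ihx, ihy]
          rw [(lcs_central (i := 0) (Subgroup.mem_top x) y).mul_pow]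
        | inv x hx ihx =>
          rw [map_inv, map_inv, map_inv, ihx, inv_pow]
      rw [← map_pow] at hu1 hv1
      obtain ⟨c, hc, hcu⟩ : ∃ c ∈ lcs H (i + 1), s u = u ^ (2 ^ (i + 1)) * c := by
        refine ⟨(u ^ (2 ^ (i + 1)))⁻¹ * s u, ?_, by group⟩
        exact QuotientGroup.eq.mp hu1.symm
      obtain ⟨d, hd, hdv⟩ : ∃ d ∈ lcs H 1, s v = v ^ 2 * d := by
        refine ⟨(v ^ 2)⁻¹ * s v, ?_, by group⟩
        exact QuotientGroup.eq.mp hv1.symm
      rw [map_commutatorElement, hcu, hdv]
      set q := QuotientGroup.mk' (lcs H (i + 1 + 1)) with hq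
      have hcen : ∀ w, Commute (q c) w := lcs_central' hc
      have hz : ∀ w, Commute (q ⁅u, v⁆) w :=
        lcs_central' (Subgroup.commutator_mem_commutator hu (Subgroup.mem_top v))
      have hud : Commute (q (u ^ (2 ^ (i + 1)))) (q d) := by
        rw [← commutatorElement_eq_one_iff_commute, ← map_commutatorElement]
        rw [← MonoidHom.mem_ker, hq, QuotientGroup.ker_mk']
        have := lcs_comm (G := H) i 1
        exact this (Subgroup.commutator_mem_commutator (pow_mem hu _) hd)
      rw [map_commutatorElement, map_mul, map_mul]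
      have e1 : ⁅q (u ^ 2 ^ (i + 1)) * q c, q (v ^ 2) * q d⁆ = ⁅q (u ^ 2 ^ (i + 1)), q (v ^ 2)⁆ := by
        rw [commutatorElement_mul_left_eq_conj_mul, (hcen _).commutator_eq,
          commutatorElement_mul_right_eq_mul_conj, hud.commutator_eq]
        group
      rw [e1, map_pow, map_pow]
      rw [comm_pow (z := q ⁅u, v⁆) (map_commutatorElement q u v).symm hz]
      rw [← pow_succ]
    | one => exact ⟨one_mem _, by rw [map_one, map_one, one_pow]⟩
    | mul x y hx hy ihx ihy =>
      refine ⟨mul_mem ihx.1 ihy.1, ?_⟩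
      rw [map_mul, map_mul, map_mul, ihx.2, ihy.2, (lcs_central ihx.1 y).mul_pow]
    | inv x hx ihx =>
      refine ⟨inv_mem ihx.1, ?_⟩
      rw [map_inv, map_inv, map_inv, ihx.2, inv_pow]

/-- The generators `y` with `s y = y ^ 2` are separated in the abelianization, when `H` is
nilpotent of class at most `n`, of exponent a power of `p`, `p > 2 ^ n`. -/
theorem abel_inj (s : H →* H) (Y : Set H) (hY : Subgroup.closure Y = ⊤)
    (hs : ∀ y ∈ Y, s y = y ^ 2) (p N n : ℕ) (hp : p.Prime) (hpn : 2 ^ n < p)
    (hexp : ∀ w : H, w ^ (p ^ N) = 1) (hn : lcs H n = ⊥) {x y : H} (hx : x ∈ Y) (hy : y ∈ Y)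
    (hxy : Abelianization.of x = Abelianization.of y) : x = y := by
  have h1 : y⁻¹ * x ∈ lcs H 1 := by
    have : QuotientGroup.mk' (commutator H) y = QuotientGroup.mk' (commutator H) x := hxy.symm
    exact QuotientGroup.eq.mp this
  have key : ∀ i, 1 ≤ i → i ≤ n → y⁻¹ * x ∈ lcs H i := by
    intro i hi
    induction i, hi using Nat.le_induction with
    | base => exact fun _ => h1
    | succ i hi ih =>
      intro hin
      have hw := ih (by omega)
      set w := y⁻¹ * x with hwdef
      have hxw : x = y * w := by rw [hwdef]; group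
      have e1 := shift_lcs s Y hY hs i w hw
      set q := QuotientGroup.mk' (lcs H (i + 1)) with hq
      have hcen : ∀ v, Commute (q w) v := lcs_central' hw
      have e2 : s w = (y ^ 2)⁻¹ * (y * w) ^ 2 := by
        have : s w = (s y)⁻¹ * s x := by rw [hwdef]; simp
        rw [this, hs y hy, hs x hx, hxw]
      have e3 : q (s w) = q w ^ 2 := by
        rw [e2, map_mul, map_inv, map_pow, map_pow, map_mul, ((hcen (q y)).symm).mul_pow]
        group
      rw [e3] at e1
      -- `(q w)^2 = (q w)^(2^(i+1))`
      have e4 : (q w) ^ (2 ^ (i + 1) - 2) = 1 := by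
        have h2 : 2 ≤ 2 ^ (i + 1) := by
          calc 2 = 2 ^ 1 := rfl
            _ ≤ 2 ^ (i + 1) := Nat.pow_le_pow_right (by norm_num) (by omega)
        have : (q w) ^ (2 ^ (i + 1) - 2) * (q w) ^ 2 = 1 * (q w) ^ 2 := by
          rw [← pow_add, Nat.sub_add_cancel h2, one_mul, e1]
        exact mul_right_cancel this
      have e5 : (q w) ^ (p ^ N) = 1 := by rw [← map_pow, hexp, map_one]
      have hcop : Nat.Coprime (2 ^ (i + 1) - 2) (p ^ N) := by
        apply Nat.Coprime.pow_right
        rw [Nat.coprime_comm, hp.coprime_iff_not_dvd]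
        intro hdvd
        have h3 : 2 ^ (i + 1) - 2 = 2 * (2 ^ i - 1) := by
          rw [pow_succ]; omega
        rw [h3] at hdvd
        have hpos : 0 < 2 ^ i - 1 := by
          have : 2 ^ 1 ≤ 2 ^ i := Nat.pow_le_pow_right (by norm_num) hi
          omega
        have hlt : 2 ^ i - 1 < p := by
          have : 2 ^ i ≤ 2 ^ n := Nat.pow_le_pow_right (by norm_num) (by omega)
          omega
        have h2n : 2 ≤ 2 ^ n := by
          calc 2 = 2 ^ 1 := rfl
            _ ≤ 2 ^ n := Nat.pow_le_pow_right (by norm_num) (by omega)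
        rcases (Nat.Prime.dvd_mul hp).mp hdvd with h | h
        · have := Nat.le_of_dvd (by norm_num) h
          omega
        · have := Nat.le_of_dvd hpos h
          omega
      have e6 : q w = 1 := by
        have := orderOf_dvd_of_pow_eq_one e4
        have h' := orderOf_dvd_of_pow_eq_one e5
        have h'' := Nat.dvd_gcd this h'
        rw [hcop.gcd_eq_one] at h''
        exact orderOf_eq_one_iff.mp (Nat.dvd_one.mp h'')
      rw [← MonoidHom.mem_ker, hq, QuotientGroup.ker_mk'] at e6
      exact e6
  rcases Nat.eq_zero_or_pos n with h0 | h0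
  · subst h0
    have : (⊤ : Subgroup H) = ⊥ := hn
    have hx' : x ∈ (⊥ : Subgroup H) := this ▸ Subgroup.mem_top x
    have hy' : y ∈ (⊥ : Subgroup H) := this ▸ Subgroup.mem_top y
    rw [Subgroup.mem_bot] at hx' hy'
    rw [hx', hy']
  · have := key n h0 le_rfl
    rw [hn, Subgroup.mem_bot] at this
    rw [inv_mul_eq_one] at this
    exact this.symm

end Pool.Agent.Helper87_Cover
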