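import Mathlib
import Pool.Agent.Helper87_Cover.Shift

/-!
Elementary facts on groups of order `p ^ n`: nilpotency class at most `n`, generated by at most
`n` elements.
-/

namespace Pool.Agent.Helper87_Cover

open Subgroup

theorem card_lt_of_lt {p n : ℕ} (hp : p.Prime) {G : Type*} [Group G] [Finite G]
    (hG : Nat.card G = p ^ n) {A B : Subgroup G} (h : A < B) :
    ∃ a b, Nat.card A = p ^ a ∧ Nat.card B = p ^ b ∧ a < b := by
  have hA : Nat.card A ∣ p ^ n := hG ▸ Subgroup.card_subgroup_dvd_card A
  have hB : Nat.card B ∣ p ^ n := hG ▸ Subgroup.card_subgroup_dvd_card B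
  obtain ⟨a, -, ha⟩ := (Nat.dvd_prime_pow hp).mp hA
  obtain ⟨b, -, hb⟩ := (Nat.dvd_prime_pow hp).mp hB
  refine ⟨a, b, ha, hb, ?_⟩
  by_contra hab
  push Not at hab
  have hle : Nat.card B ≤ Nat.card A := by
    rw [ha, hb]
    exact Nat.pow_le_pow_right hp.pos hab
  have : A = B := Subgroup.eq_of_le_of_card_ge h.le hle
  exact h.ne this

/-- A group of order `p ^ n` has nilpotency class at most `n`. -/
theorem lcs_eq_bot {p n : ℕ} (hp : p.Prime) {G : Type*} [Group G] [Finite G]
    (hG : Nat.card G = p ^ n) : lcs G n = ⊥ := by
  have : Fact p.Prime := ⟨hp⟩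
  have hnil : Group.IsNilpotent G := (IsPGroup.of_card hG).isNilpotent
  obtain ⟨N, hN⟩ := Subgroup.nilpotent_iff_lowerCentralSeries.mp hnil
  have key : ∀ i, i ≤ n → lcs G i = ⊥ ∨ ∃ a, Nat.card (lcs G i) = p ^ a ∧ a + i ≤ n := by
    intro i
    induction i with
    | zero =>
      intro _
      right
      refine ⟨n, ?_, by omega⟩
      rw [← hG]
      exact Nat.card_congr Subgroup.topEquiv.toEquiv
    | succ i ih =>
      intro hi
      rcases ih (by omega) with h | ⟨a, ha, hai⟩
      · left
        exact le_bot_iff.mp (h ▸ Subgroup.lowerCentralSeries_antitone _ (Nat.le_succ i))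
      · rcases eq_or_lt_of_le (Subgroup.lowerCentralSeries_antitone (⊤ : Subgroup G)
          (Nat.le_succ i)) with h | h
        · -- stationary, hence trivial
          left
          have hst : ∀ k, lcs G (i + k) = lcs G i := by
            intro k
            induction k with
            | zero => rfl
            | succ k ihk =>
              have : lcs G (i + (k + 1)) = ⁅lcs G (i + k), ⊤⁆ := rfl
              rw [this, ihk]
              exact h
          have h1 : lcs G (i + N) = ⊥ := le_bot_iff.mp
            (hN ▸ Subgroup.lowerCentralSeries_antitone _ (Nat.le_add_left N i))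
          rw [hst] at h1
          exact le_bot_iff.mp (h1 ▸ Subgroup.lowerCentralSeries_antitone _ (Nat.le_succ i))
        · right
          obtain ⟨c, b, hc, hb, hcb⟩ := card_lt_of_lt hp hG h
          refine ⟨c, hc, ?_⟩
          have : b = a := Nat.pow_right_injective hp.two_le (hb.symm.trans ha)
          omega
  rcases key n le_rfl with h | ⟨a, ha, hai⟩
  · exact h
  · have : a = 0 := by omega
    subst this
    rw [pow_zero] at ha
    exact Subgroup.card_eq_one.mp ha

/-- A group of order `p ^ n` is generated by at most `n` elements. -/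
theorem exists_gen {p n : ℕ} (hp : p.Prime) {G : Type*} [Group G] [Finite G]
    (hG : Nat.card G = p ^ n) :
    ∃ S : Finset G, Subgroup.closure (S : Set G) = ⊤ ∧ S.card ≤ n := by
  classical
  have key : ∀ k, ∃ S : Finset G, S.card ≤ k ∧ S.card ≤ n ∧
      (Subgroup.closure (S : Set G) = ⊤ ∨
        ∃ a, k ≤ a ∧ Nat.card (Subgroup.closure (S : Set G)) = p ^ a) := by
    intro k
    induction k with
    | zero =>
      refine ⟨∅, by simp, by simp, Or.inr ⟨0, le_rfl, ?_⟩⟩
      simp
    | succ k ih =>
      obtain ⟨S, hS, hSn, h⟩ := ih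
      rcases h with h | ⟨a, hka, ha⟩
      · exact ⟨S, by omega, hSn, Or.inl h⟩
      · by_cases htop : Subgroup.closure (S : Set G) = ⊤
        · exact ⟨S, by omega, hSn, Or.inl htop⟩
        · obtain ⟨x, hx⟩ : ∃ x, x ∉ Subgroup.closure (S : Set G) := by
            by_contra hcon
            push Not at hcon
            exact htop ((Subgroup.eq_top_iff' _).mpr hcon)
          have hlt : Subgroup.closure (S : Set G) < Subgroup.closure ((insert x S : Finset G) : Set G) := by
            refine lt_of_le_of_ne (Subgroup.closure_mono (by simp)) ?_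
            intro heq
            apply hx
            rw [heq]
            exact Subgroup.subset_closure (by simp)
          obtain ⟨c, b, hc, hb, hcb⟩ := card_lt_of_lt hp hG hlt
          have hca : c = a := Nat.pow_right_injective hp.two_le (hc.symm.trans ha)
          have hbn : b ≤ n := by
            have : Nat.card (Subgroup.closure ((insert x S : Finset G) : Set G)) ∣ p ^ n :=
              hG ▸ Subgroup.card_subgroup_dvd_card _
            rw [hb] at this
            exact (Nat.pow_dvd_pow_iff_le_right hp.one_lt).mp this
          refine ⟨insert x S, ?_, ?_, Or.inr ⟨b, by omega, hb⟩⟩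
          · exact (Finset.card_insert_le _ _).trans (by omega)
          · exact (Finset.card_insert_le _ _).trans (by omega)
  obtain ⟨S, -, hSn, h⟩ := key n
  refine ⟨S, ?_, hSn⟩
  rcases h with h | ⟨a, hna, ha⟩
  · exact h
  · apply Subgroup.eq_top_of_le_card
    rw [ha, hG]
    exact Nat.pow_le_pow_right hp.pos hna

end Pool.Agent.Helper87_Cover
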