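import Mathlib
import Pool.Agent.Helper87_Cover.PGroup

/-!
A group of order `p ^ n` acting faithfully and unipotently (with bounded length) on an abelian
group of finite exponent embeds in a fixed finite group.
-/

namespace Pool.Agent.Helper87_Cover

/-- number of words of length at most `n` in `n` letters -/
def wordCount (n : ℕ) : ℕ := ∑ l ∈ Finset.range (n + 1), n ^ l

/-- The index set of the cyclic factors of the universal abelian group. -/
abbrev Idx (n : ℕ) : Type := Fin (n * wordCount n) × Fin (n + 1)

/-- The universal abelian group. -/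
abbrev BB (p n : ℕ) : Type := ∀ x : Idx n, ZMod (p ^ (x.2 : ℕ))

section closure

variable {A : Type*} [AddCommGroup A]

theorem closure_finite_aux (q : ℕ) [NeZero q] [Module (ZMod q) A] (T : Finset A) :
    Finite (AddSubgroup.closure (T : Set A)) ∧
      Nat.card (AddSubgroup.closure (T : Set A)) ≤ q ^ T.card := by
  classical
  let f : (T → ZMod q) →ₗ[ZMod q] A := Fintype.linearCombination (ZMod q) (fun t : T => (t : A))
  have hle : AddSubgroup.closure (T : Set A) ≤ f.toAddMonoidHom.range := by
    rw [AddSubgroup.closure_le]
    intro t ht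
    refine ⟨Pi.single ⟨t, ht⟩ 1, ?_⟩
    simp [f, Fintype.linearCombination_apply_single]
  have hsurj : Function.Surjective f.toAddMonoidHom.rangeRestrict :=
    AddMonoidHom.rangeRestrict_surjective _
  have hfin : Finite f.toAddMonoidHom.range := Finite.of_surjective _ hsurj
  have hcard : Nat.card f.toAddMonoidHom.range ≤ q ^ T.card := by
    have h1 := Nat.card_le_card_of_surjective _ hsurj
    refine h1.trans (le_of_eq ?_)
    rw [Nat.card_fun, Nat.card_zmod, Nat.card_eq_fintype_card, Fintype.card_coe]
  refine ⟨Finite.of_injective (AddSubgroup.inclusion hle) (AddSubgroup.inclusion_injective hle), ?_⟩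
  exact (Nat.card_le_card_of_injective _ (AddSubgroup.inclusion_injective hle)).trans hcard

theorem closure_finite (q : ℕ) (hq : 0 < q) (h : ∀ a : A, q • a = 0) (T : Finset A) :
    Finite (AddSubgroup.closure (T : Set A)) ∧
      Nat.card (AddSubgroup.closure (T : Set A)) ≤ q ^ T.card :=
  have : NeZero q := ⟨hq.ne'⟩
  @closure_finite_aux A _ q this (AddCommGroup.zmodModule h) T

end closure

section retract

/-- If `B` is a retract of `C`, endomorphisms of `B` extend multiplicatively to `C`. -/
def endExt {B C : Type*} [AddCommGroup B] [AddCommGroup C] (i : B →+ C) (r : C →+ B)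
    (hri : ∀ b, r (i b) = b) : AddMonoid.End B →* AddMonoid.End C where
  toFun φ := (i.comp (φ.comp r)) + (AddMonoidHom.id C - i.comp r)
  map_one' := by
    refine AddMonoidHom.ext fun c => ?_
    change i (r c) + (c - i (r c)) = c
    abel
  map_mul' φ ψ := by
    refine AddMonoidHom.ext fun c => ?_
    change i (φ (ψ (r c))) + (c - i (r c)) =
      i (φ (r (i (ψ (r c)) + (c - i (r c))))) +
        ((i (ψ (r c)) + (c - i (r c))) - i (r (i (ψ (r c)) + (c - i (r c)))))
    have h1 : r (i (ψ (r c)) + (c - i (r c))) = ψ (r c) := by
      rw [map_add, map_sub, hri, hri]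
      abel
    rw [h1]
    abel

theorem endExt_injective {B C : Type*} [AddCommGroup B] [AddCommGroup C] (i : B →+ C) (r : C →+ B)
    (hri : ∀ b, r (i b) = b) : Function.Injective (endExt i r hri) := by
  intro φ ψ h
  refine AddMonoidHom.ext fun b => ?_
  have h1 : i (φ (r (i b))) + (i b - i (r (i b))) = i (ψ (r (i b))) + (i b - i (r (i b))) :=
    DFunLike.congr_fun h (i b)
  rw [hri] at h1
  have h2 := congrArg r (add_right_cancel h1)
  rwa [hri, hri] at h2

end retract

/-- words of length exactly `l` in the operators `act x - 1`, applied to `v` -/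
noncomputable def words {G A : Type*} [Group G] [AddCommGroup A] (act : G →* AddMonoid.End A)
    (S : Finset G) (v : A) : ℕ → Finset A :=
  fun l => by
    classical
    exact Nat.rec {v} (fun _ E => Finset.image₂ (fun x a => act x a - a) S E) l

section words

variable {G A : Type*} [Group G] [AddCommGroup A] (act : G →* AddMonoid.End A)
    (S : Finset G) (v : A)

theorem words_zero : words act S v 0 = {v} := rfl

theorem mem_words_succ {l : ℕ} {b : A} : b ∈ words act S v (l + 1) ↔
    ∃ x ∈ S, ∃ a ∈ words act S v l, act x a - a = b := by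
  classical
  exact Finset.mem_image₂

theorem words_card (l : ℕ) : (words act S v l).card ≤ S.card ^ l := by
  classical
  induction l with
  | zero => simp [words_zero]
  | succ l ih =>
    calc (words act S v (l + 1)).card ≤ S.card * (words act S v l).card :=
          Finset.card_image₂_le _ _ _
      _ ≤ S.card * S.card ^ l := Nat.mul_le_mul_left _ ih
      _ = S.card ^ (l + 1) := by ring

end words

/-- There is a finite, faithful, `G`-stable subgroup of bounded order. -/
theorem exists_stable {p n : ℕ} (hp : p.Prime) {G : Type*} [Group G] [Finite G]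
    (hG : Nat.card G = p ^ n) {A : Type*} [AddCommGroup A] (act : G →* AddMonoid.End A) (v : A)
    (hexp : ∀ a : A, (p ^ n) • a = 0)
    (Fl : ℕ → AddSubgroup A) (h0 : v ∈ Fl 0)
    (hstep : ∀ j ≤ n, ∀ g, ∀ a ∈ Fl j, act g a - a ∈ Fl (j + 1)) (hbot : Fl (n + 1) = ⊥) :
    ∃ B : AddSubgroup A, v ∈ B ∧ Finite B ∧ Nat.card B ≤ (p ^ n) ^ wordCount n ∧
      ∀ g, ∀ a ∈ B, act g a ∈ B := by
  classical
  obtain ⟨S, hS, hSn⟩ := exists_gen hp hG
  set E := words act S v with hE
  have hEF : ∀ l ≤ n + 1, ∀ a ∈ E l, a ∈ Fl l := by
    intro l
    induction l with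
    | zero =>
      intro _ a ha
      rw [hE, words_zero, Finset.mem_singleton] at ha
      rw [ha]
      exact h0
    | succ l ih =>
      intro hl b hb
      obtain ⟨x, -, a, ha, rfl⟩ := (mem_words_succ act S v).mp hb
      exact hstep l (by omega) x a (ih (by omega) a ha)
  set T : Finset A := (Finset.range (n + 1)).biUnion E with hT
  have hTcard : T.card ≤ wordCount n := by
    refine Finset.card_biUnion_le.trans ?_
    refine Finset.sum_le_sum fun l _ => ?_
    exact (words_card act S v l).trans (Nat.pow_le_pow_left hSn l)
  obtain ⟨hfin, hcard⟩ := closure_finite (p ^ n) (pow_pos hp.pos n) hexp T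
  refine ⟨AddSubgroup.closure (T : Set A), ?_, hfin, ?_, ?_⟩
  · apply AddSubgroup.subset_closure
    simp only [hT, Finset.coe_biUnion, Set.mem_iUnion]
    exact ⟨0, by simp, by simp [hE, words_zero]⟩
  · exact hcard.trans (Nat.pow_le_pow_right (pow_pos hp.pos n) hTcard)
  · -- stability
    set B := AddSubgroup.closure (T : Set A) with hB
    have hmemB : ∀ l ≤ n, ∀ a ∈ E l, a ∈ B := by
      intro l hl a ha
      apply AddSubgroup.subset_closure
      simp only [hT, Finset.coe_biUnion, Set.mem_iUnion]
      exact ⟨l, by simpa using Nat.lt_succ_of_le hl, ha⟩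
    have hgen : ∀ x ∈ S, ∀ a ∈ B, act x a ∈ B := by
      intro x hx a ha
      induction ha using AddSubgroup.closure_induction with
      | mem a ha =>
        simp only [hT, Finset.coe_biUnion, Set.mem_iUnion, Finset.coe_range, Set.mem_Iio] at ha
        obtain ⟨l, hl, ha⟩ := ha
        have h1 : act x a = (act x a - a) + a := by abel
        rw [h1]
        refine B.add_mem ?_ (hmemB l (by omega) a ha)
        have h2 : act x a - a ∈ E (l + 1) := (mem_words_succ act S v).mpr ⟨x, hx, a, ha, rfl⟩
        rcases Nat.lt_or_ge l n with h | h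
        · exact hmemB (l + 1) h _ h2
        · have : l = n := by omega
          subst this
          have := hEF (l + 1) le_rfl _ h2
          rw [hbot, AddSubgroup.mem_bot] at this
          rw [this]
          exact B.zero_mem
      | zero => rw [map_zero]; exact B.zero_mem
      | add a b _ _ ha hb => rw [map_add]; exact B.add_mem ha hb
      | neg a _ ha => rw [map_neg]; exact B.neg_mem ha
    have hpow : ∀ g, (∀ a ∈ B, act g a ∈ B) → ∀ k : ℕ, ∀ a ∈ B, act (g ^ k) a ∈ B := by
      intro g hg k
      induction k with
      | zero => intro a ha; rw [pow_zero, map_one]; exact ha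
      | succ k ih =>
        intro a ha
        rw [pow_succ, map_mul]
        exact ih _ (hg a ha)
    intro g
    have hg : g ∈ Subgroup.closure (S : Set G) := by rw [hS]; trivial
    induction hg using Subgroup.closure_induction with
    | mem x hx => exact hgen x hx
    | one => intro a ha; rw [map_one]; exact ha
    | mul x y _ _ hx hy =>
      intro a ha
      rw [map_mul]
      exact hx _ (hy a ha)
    | inv x _ hx =>
      have hcardpos : 0 < Nat.card G := Nat.card_pos
      have : x⁻¹ = x ^ (Nat.card G - 1) := by
        rw [inv_eq_iff_mul_eq_one, ← pow_succ', Nat.sub_add_cancel hcardpos, pow_card_eq_one']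
      rw [this]
      exact hpow x hx _

end Pool.Agent.Helper87_Cover
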