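import Mathlib
import Pool.Agent.Helper87_Cover.Universal

/-!
Every finite abelian group of exponent dividing `p ^ n` and order at most
`(p ^ n) ^ (wordCount n)` is a retract of `BB p n`.
-/

namespace Pool.Agent.Helper87_Cover

theorem exists_retract {p n : ℕ} (hp : p.Prime) (B : Type*) [AddCommGroup B] [Finite B]
    (hexp : ∀ b : B, (p ^ n) • b = 0) (hcard : Nat.card B ≤ (p ^ n) ^ wordCount n) :
    ∃ (i : B →+ BB p n) (r : BB p n →+ B), ∀ b, r (i b) = b := by
  classical
  obtain ⟨ι, hι, m, hm, ⟨e⟩⟩ := AddCommGroup.equiv_directSum_zmod_of_finite' B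
  have e2 : B ≃+ ∀ i, ZMod (m i) := e.trans (DirectSum.addEquivProd _)
  -- each `m i` is `p ^ k` with `1 ≤ k ≤ n`
  have hm1 : ∀ i, ∃ k : ℕ, 1 ≤ k ∧ k ≤ n ∧ m i = p ^ k := by
    intro i
    have h1 : m i ∣ p ^ n := by
      have h2 : (p ^ n) • (Pi.single i 1 : ∀ i, ZMod (m i)) = 0 := by
        have := congrArg e2 (hexp (e2.symm (Pi.single i 1)))
        rwa [map_nsmul, AddEquiv.apply_symm_apply, map_zero] at this
      have h3 := congrFun h2 i
      rw [Pi.smul_apply, Pi.single_eq_same, Pi.zero_apply, nsmul_eq_mul, mul_one] at h3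
      exact (ZMod.natCast_eq_zero_iff _ _).mp h3
    obtain ⟨k, hk, hk2⟩ := (Nat.dvd_prime_pow hp).mp h1
    refine ⟨k, ?_, hk, hk2⟩
    by_contra h
    have : k = 0 := by omega
    subst this
    have := hm i
    rw [hk2] at this
    simp at this
  choose k hk1 hk2 hk3 using hm1
  -- number of factors
  have hι2 : Fintype.card ι ≤ n * wordCount n := by
    have h1 : Nat.card B = ∏ i, m i := by
      rw [Nat.card_congr e2.toEquiv, Nat.card_pi]
      simp
    have h2 : p ^ Fintype.card ι ≤ Nat.card B := by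
      rw [h1, ← Finset.card_univ, ← Finset.prod_const]
      refine Finset.prod_le_prod' fun i _ => ?_
      rw [hk3]
      calc p = p ^ 1 := (pow_one p).symm
        _ ≤ p ^ k i := Nat.pow_le_pow_right hp.pos (hk1 i)
    have h3 := h2.trans hcard
    rw [← pow_mul] at h3
    exact (Nat.pow_le_pow_iff_right hp.one_lt).mp h3
  obtain ⟨g⟩ : Nonempty (ι ↪ Fin (n * wordCount n)) := by
    apply Function.Embedding.nonempty_of_card_le
    simpa using hι2
  let f : ι → Idx n := fun i => (g i, ⟨k i, by have := hk2 i; omega⟩)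
  have hf : Function.Injective f := by
    intro i j hij
    exact g.injective (congrArg Prod.fst hij)
  obtain rfl : m = fun i => p ^ ((f i).2 : ℕ) := funext hk3
  let i0 : (∀ i : ι, ZMod (p ^ ((f i).2 : ℕ))) →+ BB p n :=
    ∑ j : ι, (AddMonoidHom.single (fun x : Idx n => ZMod (p ^ (x.2 : ℕ))) (f j)).comp
      (Pi.evalAddMonoidHom (fun i : ι => ZMod (p ^ ((f i).2 : ℕ))) j)
  let r0 : BB p n →+ (∀ i : ι, ZMod (p ^ ((f i).2 : ℕ))) :=
    AddMonoidHom.pi fun j => Pi.evalAddMonoidHom (fun x : Idx n => ZMod (p ^ (x.2 : ℕ))) (f j)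
  have hri : ∀ b, r0 (i0 b) = b := by
    intro b
    funext j
    change (i0 b) (f j) = b j
    have h1 : i0 b = ∑ l : ι, Pi.single (f l) (b l) := by
      simp only [i0, AddMonoidHom.finsetSum_apply]
      rfl
    rw [h1, Finset.sum_apply, Finset.sum_eq_single j]
    · rw [Pi.single_eq_same]
    · intro l _ hl
      exact Pi.single_eq_of_ne (fun h => hl (hf h.symm)) _
    · intro h
      exact absurd (Finset.mem_univ j) h
  refine ⟨i0.comp e2.toAddMonoidHom, e2.symm.toAddMonoidHom.comp r0, fun b => ?_⟩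
  change e2.symm (r0 (i0 (e2 b))) = b
  rw [hri, AddEquiv.symm_apply_apply]

end Pool.Agent.Helper87_Cover
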