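import Mathlib
import Pool.Agent.Helper87_Cover.Embed

/-!
The abelian group attached to a group `G` of order `p ^ n`, `p > 2 ^ n`, with its action of `G`.
-/

namespace Pool.Agent.Helper87_Cover

open Subgroup
open scoped commutatorElement

variable (G : Type*) [Group G]

/-- sequences of powers -/
def powSeq {G : Type*} [Group G] (a : G → G) : ℕ → G → G := fun j => a ^ (2 ^ j)

/-- the group generated by the sequences of powers of the right translations -/
def calG : Subgroup (ℕ → G → G) :=
  Subgroup.closure (Set.range fun g : G => powSeq (R g id))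

/-- right translation on sequences -/
def rho {G : Type*} [Group G] (g : G) : (ℕ → G → G) →* (ℕ → G → G) where
  toFun w := fun j => R g (w j)
  map_one' := rfl
  map_mul' _ _ := rfl

/-- the shift on sequences -/
def shiftHom (M : Type*) [Group M] : (ℕ → M) →* (ℕ → M) where
  toFun w := fun j => w (j + 1)
  map_one' := rfl
  map_mul' _ _ := rfl

variable {G}

theorem R_pow (g : G) (a : G → G) (k : ℕ) : R g (a ^ k) = (R g a) ^ k := by
  ext x
  simp [R]

theorem R_R_id (g h : G) : R g (R h id) = R (g * h) id := by
  ext x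
  simp [R, mul_assoc]

theorem rho_powSeq (g h : G) : rho g (powSeq (R h id)) = powSeq (R (g * h) id) := by
  funext j
  change R g ((R h id) ^ (2 ^ j)) = (R (g * h) id) ^ (2 ^ j)
  rw [R_pow, R_R_id]

theorem powSeq_mem (g : G) : powSeq (R g id) ∈ calG G := Subgroup.subset_closure ⟨g, rfl⟩

theorem rho_mem (g : G) {w : ℕ → G → G} (hw : w ∈ calG G) : rho g w ∈ calG G := by
  have : calG G ≤ (calG G).comap (rho g) := by
    unfold calG
    rw [Subgroup.closure_le]
    rintro _ ⟨h, rfl⟩
    change rho g (powSeq (R h id)) ∈ calG G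
    rw [rho_powSeq]
    exact powSeq_mem _
  exact this hw

theorem shift_powSeq (a : G → G) : shiftHom (G → G) (powSeq a) = powSeq a ^ 2 := by
  funext j
  change a ^ (2 ^ (j + 1)) = (a ^ (2 ^ j)) ^ 2
  rw [← pow_mul, pow_succ]

theorem shift_mem {w : ℕ → G → G} (hw : w ∈ calG G) : shiftHom (G → G) w ∈ calG G := by
  have : calG G ≤ (calG G).comap (shiftHom (G → G)) := by
    unfold calG
    rw [Subgroup.closure_le]
    rintro _ ⟨h, rfl⟩
    change shiftHom (G → G) (powSeq (R h id)) ∈ calG G
    rw [shift_powSeq]
    exact pow_mem (powSeq_mem _) 2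
  exact this hw

/-- the shift on `calG` -/
def shiftG (G : Type*) [Group G] : calG G →* calG G :=
  ((shiftHom (G → G)).comp (calG G).subtype).codRestrict (calG G) fun w => shift_mem w.2

/-- the translation on `calG` -/
def rhoG (g : G) : calG G →* calG G :=
  ((rho g).comp (calG G).subtype).codRestrict (calG G) fun w => rho_mem g w.2

/-- the generators as elements of `calG` -/
def gen (g : G) : calG G := ⟨powSeq (R g id), powSeq_mem g⟩

theorem rhoG_gen (g h : G) : rhoG g (gen h) = gen (g * h) := Subtype.ext (rho_powSeq g h)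

theorem shiftG_gen (g : G) : shiftG G (gen g) = gen g ^ 2 := Subtype.ext (shift_powSeq _)

theorem closure_gen : Subgroup.closure (Set.range (gen : G → calG G)) = ⊤ := by
  rw [eq_top_iff]
  rintro ⟨w, hw⟩ -
  have hle : calG G ≤ (Subgroup.closure (Set.range (gen : G → calG G))).map (calG G).subtype := by
    conv_lhs => unfold calG
    rw [Subgroup.closure_le]
    rintro _ ⟨h, rfl⟩
    exact ⟨gen h, Subgroup.subset_closure ⟨h, rfl⟩, rfl⟩
  obtain ⟨w', hw', h⟩ := hle hw
  have : w' = ⟨w, hw⟩ := Subtype.ext h
  exact this ▸ hw'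

theorem gen_injective : Function.Injective (gen : G → calG G) := by
  intro g h hgh
  have h1 := congrFun (congrFun (congrArg Subtype.val hgh) 0) 1
  simpa [gen, powSeq, R] using h1

/-- `calG` is nilpotent of class at most that of `G`. -/
theorem lcs_calG {n : ℕ} (hn : lcs G n = ⊥) : lcs (calG G) n = ⊥ := by
  rw [← Subgroup.map_subtype_inj, Subgroup.map_bot, Subgroup.top_subtype_lowerCentralSeries,
    eq_bot_iff]
  refine (Subgroup.lowerCentralSeries_mono n le_top).trans ?_
  refine (Subgroup.top_lowerCentralSeries_pi_le n).trans ?_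
  intro w hw
  rw [Subgroup.mem_bot]
  funext j
  have h1 := Subgroup.top_lowerCentralSeries_pi_le n (hw j (Set.mem_univ _))
  funext x
  have h2 := h1 x (Set.mem_univ _)
  change w j x ∈ lcs G n at h2
  rw [hn, Subgroup.mem_bot] at h2
  exact h2

theorem calG_pow {N : ℕ} (hN : ∀ g : G, g ^ N = 1) (w : calG G) : w ^ N = 1 := by
  apply Subtype.ext
  funext j x
  exact hN _

/-- the separated vectors -/
theorem of_gen_injective [Finite G] {p n : ℕ} (hp : p.Prime) (hG : Nat.card G = p ^ n)
    (hpn : 2 ^ n < p) {g h : G} (hgh : Abelianization.of (gen g) = Abelianization.of (gen h)) :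
    g = h := by
  apply gen_injective
  refine abel_inj (shiftG G) (Set.range gen) closure_gen ?_ p n n hp hpn ?_
    (lcs_calG (lcs_eq_bot hp hG)) ⟨g, rfl⟩ ⟨h, rfl⟩ hgh
  · rintro _ ⟨g, rfl⟩
    exact shiftG_gen g
  · intro w
    apply calG_pow
    intro g
    rw [← hG]
    exact pow_card_eq_one'

theorem exists_of {H : Type*} [Group H] (a : Additive (Abelianization H)) :
    ∃ w, Additive.ofMul (Abelianization.of w) = a := by
  obtain ⟨w, hw⟩ := QuotientGroup.mk'_surjective _ (Additive.toMul a)
  exact ⟨w, congrArg Additive.ofMul hw⟩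

/-- the action of `G` on the abelianization of `calG` -/
noncomputable def actA (G : Type*) [Group G] : G →* AddMonoid.End (Additive (Abelianization (calG G))) where
  toFun g := MonoidHom.toAdditive (Abelianization.map (rhoG g))
  map_one' := by
    refine AddMonoidHom.ext fun a => ?_
    obtain ⟨w, rfl⟩ := exists_of a
    change Additive.ofMul (Abelianization.map (rhoG 1) (Abelianization.of w)) = _
    rw [Abelianization.map_of]
    have : rhoG 1 w = w := by
      apply Subtype.ext
      funext j x
      change w.1 j (x * 1) = w.1 j x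
      rw [mul_one]
    rw [this]
    rfl
  map_mul' g h := by
    refine AddMonoidHom.ext fun a => ?_
    obtain ⟨w, rfl⟩ := exists_of a
    change Additive.ofMul (Abelianization.map (rhoG (g * h)) (Abelianization.of w)) =
      Additive.ofMul (Abelianization.map (rhoG g) (Abelianization.map (rhoG h) (Abelianization.of w)))
    rw [Abelianization.map_of, Abelianization.map_of, Abelianization.map_of]
    congr 2
    apply Subtype.ext
    funext j x
    change w.1 j (x * (g * h)) = w.1 j (x * g * h)
    rw [mul_assoc]

theorem actA_apply (g : G) (w : calG G) :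
    actA G g (Additive.ofMul (Abelianization.of w)) =
      Additive.ofMul (Abelianization.of (rhoG g w)) := rfl

/-- the filtration of `calG` by polynomial degree -/
def TT (G : Type*) [Group G] (n j : ℕ) : Subgroup (calG G) :=
  (Subgroup.pi Set.univ fun _ : ℕ => (iterFil G (n + 1 - j)).S j).comap (calG G).subtype

theorem mem_TT {n j : ℕ} {w : calG G} : w ∈ TT G n j ↔ ∀ i, w.1 i ∈ (iterFil G (n + 1 - j)).S j := by
  constructor
  · intro h i
    exact h i (Set.mem_univ i)
  · intro h i _
    exact h i

/-- the induced filtration -/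
noncomputable def FlA (G : Type*) [Group G] (n j : ℕ) :
    AddSubgroup (Additive (Abelianization (calG G))) :=
  Subgroup.toAddSubgroup ((TT G n j).map Abelianization.of)

theorem mem_FlA {n j : ℕ} {a : Additive (Abelianization (calG G))} :
    a ∈ FlA G n j ↔ ∃ w ∈ TT G n j, Additive.ofMul (Abelianization.of w) = a := Iff.rfl

theorem FlA_step (n j : ℕ) (hj : j ≤ n) (g : G) (a : Additive (Abelianization (calG G)))
    (ha : a ∈ FlA G n j) : actA G g a - a ∈ FlA G n (j + 1) := by
  obtain ⟨w, hw, rfl⟩ := mem_FlA.mp ha
  rw [actA_apply, mem_FlA]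
  refine ⟨w⁻¹ * rhoG g w, ?_, ?_⟩
  · rw [mem_TT] at hw ⊢
    intro i
    have h1 := hw i
    have e : n + 1 - j = (n + 1 - (j + 1)) + 1 := by omega
    rw [e] at h1
    exact (mem_next.mp h1).2 g
  · rw [map_mul, map_inv, ofMul_mul, ofMul_inv]
    abel

theorem FlA_zero (n : ℕ) (g : G) :
    Additive.ofMul (Abelianization.of (gen g)) ∈ FlA G n 0 := by
  refine mem_FlA.mpr ⟨gen g, ?_, rfl⟩
  rw [mem_TT]
  intro i
  exact pow_mem (R_id_mem _ g) _

theorem FlA_bot {n : ℕ} (hn : lcs G n = ⊥) : FlA G n (n + 1) = ⊥ := by
  rw [eq_bot_iff]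
  intro a ha
  obtain ⟨w, hw, rfl⟩ := mem_FlA.mp ha
  rw [mem_TT] at hw
  have : w = 1 := by
    apply Subtype.ext
    funext i x
    have h1 := val_mem _ _ (hw i) x
    change w.1 i x ∈ lcs G n at h1
    rw [hn, Subgroup.mem_bot] at h1
    exact h1
  rw [this, map_one, ofMul_one]
  exact AddSubgroup.zero_mem _

/-- For `p > 2 ^ n`, every group of order `p ^ n` embeds in the endomorphism monoid of
`BB p n`. -/
theorem exists_embedding {p n : ℕ} (hp : p.Prime) [Finite G] (hG : Nat.card G = p ^ n)
    (hpn : 2 ^ n < p) : ∃ f : G →* AddMonoid.End (BB p n), Function.Injective f := by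
  have hexp : ∀ a : Additive (Abelianization (calG G)), (p ^ n) • a = 0 := by
    intro a
    obtain ⟨w, rfl⟩ := exists_of a
    rw [← ofMul_pow, ← map_pow, calG_pow, map_one, ofMul_one]
    intro g
    rw [← hG]
    exact pow_card_eq_one'
  obtain ⟨B, hvB, hBfin, hBcard, hBst⟩ := exists_stable hp hG (actA G)
    (Additive.ofMul (Abelianization.of (gen (1 : G)))) hexp (FlA G n) (FlA_zero n 1)
    (fun j hj g a ha => FlA_step n j hj g a ha) (FlA_bot (lcs_eq_bot hp hG))
  -- the restricted action
  let actB : G →* AddMonoid.End B :=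
    { toFun := fun g =>
        (((actA G g).comp B.subtype).codRestrict B (fun b => hBst g b b.2) : B →+ B)
      map_one' := by
        refine AddMonoidHom.ext fun b => Subtype.ext ?_
        change actA G 1 b = b
        rw [map_one]
        rfl
      map_mul' := by
        intro g h
        refine AddMonoidHom.ext fun b => Subtype.ext ?_
        change actA G (g * h) b = actA G g (actA G h b)
        rw [map_mul]
        rfl }
  have hinj : Function.Injective actB := by
    rw [injective_iff_map_eq_one]
    intro g hg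
    have h1 := congrArg Subtype.val (DFunLike.congr_fun hg ⟨_, hvB⟩)
    change actA G g (Additive.ofMul (Abelianization.of (gen (1 : G)))) =
      Additive.ofMul (Abelianization.of (gen (1 : G))) at h1
    rw [actA_apply, rhoG_gen, mul_one] at h1
    exact of_gen_injective hp hG hpn (Additive.ofMul.injective h1)
  obtain ⟨i, r, hri⟩ := exists_retract hp B (fun b => Subtype.ext (hexp b)) hBcard
  exact ⟨(endExt i r hri).comp actB, (endExt_injective i r hri).comp hinj⟩

end Pool.Agent.Helper87_Cover
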