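import Mathlib
import Pool.Agent.Helper87_Cover.SeqModule

/-!
Universal groups of bounded order.
-/

namespace Pool.Agent.Helper87_Cover

/-- additive endomorphisms of a finite product are determined by the images of the standard
generators -/
theorem endo_ext {I : Type} [Fintype I] [DecidableEq I] (m : I → ℕ) [∀ x, NeZero (m x)]
    (φ ψ : (∀ x, ZMod (m x)) →+ (∀ x, ZMod (m x)))
    (h : ∀ x, φ (Pi.single x 1) = ψ (Pi.single x 1)) : φ = ψ := by
  refine AddMonoidHom.ext fun b => ?_
  have hb : b = ∑ x : I, (b x).val • (Pi.single x 1 : ∀ x, ZMod (m x)) := by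
    funext y
    rw [Finset.sum_apply, Finset.sum_eq_single y]
    · rw [Pi.smul_apply, Pi.single_eq_same, nsmul_eq_mul, mul_one, ZMod.natCast_zmod_val]
    · intro z _ hz
      rw [Pi.smul_apply, Pi.single_eq_of_ne hz.symm, smul_zero]
    · intro h
      exact absurd (Finset.mem_univ y) h
  rw [hb, map_sum, map_sum]
  refine Finset.sum_congr rfl fun x _ => ?_
  rw [map_nsmul, map_nsmul, h x]

theorem card_end_le (p n : ℕ) (hp : 0 < p) :
    Finite (AddMonoid.End (BB p n)) ∧
      Nat.card (AddMonoid.End (BB p n)) ≤ p ^ (n * (n * wordCount n * (n + 1)) ^ 2) := by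
  classical
  have hne : ∀ x : Idx n, NeZero (p ^ (x.2 : ℕ)) := fun x => ⟨(pow_pos hp _).ne'⟩
  have hfin : Finite (BB p n) := inferInstance
  let ev : AddMonoid.End (BB p n) → (Idx n → BB p n) := fun φ x => φ (Pi.single x 1)
  have hinj : Function.Injective ev := by
    intro φ ψ h
    refine endo_ext (fun x : Idx n => p ^ (x.2 : ℕ)) φ ψ fun x => congrFun h x
  refine ⟨Finite.of_injective ev hinj, ?_⟩
  have hBB : Nat.card (BB p n) ≤ (p ^ n) ^ (n * wordCount n * (n + 1)) := by
    rw [Nat.card_pi]
    have h1 : ∀ x : Idx n, Nat.card (ZMod (p ^ (x.2 : ℕ))) ≤ p ^ n := by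
      intro x
      rw [Nat.card_zmod]
      exact Nat.pow_le_pow_right hp (Nat.lt_succ_iff.mp x.2.2)
    refine (Finset.prod_le_prod' fun x _ => h1 x).trans (le_of_eq ?_)
    rw [Finset.prod_const, Finset.card_univ, Fintype.card_prod, Fintype.card_fin, Fintype.card_fin]
  calc Nat.card (AddMonoid.End (BB p n)) ≤ Nat.card (Idx n → BB p n) :=
        Nat.card_le_card_of_injective ev hinj
    _ = Nat.card (BB p n) ^ (n * wordCount n * (n + 1)) := by
        rw [Nat.card_fun, Nat.card_eq_fintype_card (α := Idx n), Fintype.card_prod,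
          Fintype.card_fin, Fintype.card_fin]
    _ ≤ ((p ^ n) ^ (n * wordCount n * (n + 1))) ^ (n * wordCount n * (n + 1)) :=
        Nat.pow_le_pow_left hBB _
    _ = p ^ (n * (n * wordCount n * (n + 1)) ^ 2) := by
        rw [← pow_mul, ← pow_mul]
        congr 1
        ring

/-- For every prime `p > 2 ^ n` there is a finite group of order at most
`p ^ (n * (n * wordCount n * (n + 1)) ^ 2)` containing all groups of order `p ^ n`. -/
theorem large_prime (p n : ℕ) (hp : p.Prime) (hpn : 2 ^ n < p) :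
    ∃ (U : Type) (_ : Group U) (_ : Finite U),
      (∀ (H : Type) [Group H], Nat.card H = p ^ n → ∃ f : H →* U, Function.Injective f) ∧
      Nat.card U ≤ p ^ (n * (n * wordCount n * (n + 1)) ^ 2) := by
  obtain ⟨hfin, hcard⟩ := card_end_le p n hp.pos
  refine ⟨(AddMonoid.End (BB p n))ˣ, inferInstance, inferInstance, ?_, ?_⟩
  · intro H _ hH
    have : Finite H := Nat.finite_of_card_ne_zero (by rw [hH]; exact (pow_pos hp.pos n).ne')
    obtain ⟨f, hf⟩ := exists_embedding hp hH hpn
    refine ⟨MonoidHom.toHomUnits f, fun a b hab => hf ?_⟩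
    have := congrArg Units.val hab
    simpa using this
  · exact (Nat.card_le_card_of_injective _ Units.val_injective).trans hcard

/-- For small primes the symmetric group is good enough. -/
theorem small_prime (p n : ℕ) (hp : p.Prime) (hpn : p ≤ 2 ^ n) :
    ∃ (U : Type) (_ : Group U) (_ : Finite U),
      (∀ (H : Type) [Group H], Nat.card H = p ^ n → ∃ f : H →* U, Function.Injective f) ∧
      Nat.card U ≤ p ^ (n * 2 ^ (n * n)) := by
  refine ⟨Equiv.Perm (Fin (p ^ n)), inferInstance, inferInstance, ?_, ?_⟩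
  · intro H _ hH
    have : Finite H := Nat.finite_of_card_ne_zero (by rw [hH]; exact (pow_pos hp.pos n).ne')
    have e : H ≃ Fin (p ^ n) := hH ▸ Finite.equivFin H
    refine ⟨(e.permCongrHom.toMonoidHom).comp (MulAction.toPermHom H H), ?_⟩
    exact e.permCongrHom.injective.comp MulAction.toPerm_injective
  · rw [Nat.card_eq_fintype_card, Fintype.card_perm, Fintype.card_fin]
    calc (p ^ n).factorial ≤ (p ^ n) ^ (p ^ n) := Nat.factorial_le_pow _
      _ = p ^ (n * p ^ n) := by rw [← pow_mul]
      _ ≤ p ^ (n * 2 ^ (n * n)) := by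
          apply Nat.pow_le_pow_right hp.pos
          apply Nat.mul_le_mul_left
          calc p ^ n ≤ (2 ^ n) ^ n := Nat.pow_le_pow_left hpn n
            _ = 2 ^ (n * n) := by rw [← pow_mul]

/-- The exponent of the order of the universal group. -/
def F (n : ℕ) : ℕ := n * 2 ^ (n * n) + n * (n * wordCount n * (n + 1)) ^ 2

theorem exists_universal (p n : ℕ) (hp : p.Prime) :
    ∃ (U : Type) (_ : Group U) (_ : Finite U),
      (∀ (H : Type) [Group H], Nat.card H = p ^ n → ∃ f : H →* U, Function.Injective f) ∧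
      Nat.card U ≤ p ^ F n := by
  rcases Nat.lt_or_ge (2 ^ n) p with h | h
  · obtain ⟨U, i1, i2, h1, h2⟩ := large_prime p n hp h
    exact ⟨U, i1, i2, h1, h2.trans (Nat.pow_le_pow_right hp.pos (Nat.le_add_left _ _))⟩
  · obtain ⟨U, i1, i2, h1, h2⟩ := small_prime p n hp h
    exact ⟨U, i1, i2, h1, h2.trans (Nat.pow_le_pow_right hp.pos (Nat.le_add_right _ _))⟩

end Pool.Agent.Helper87_Cover
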